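import Pool.Agent.Helper2.RG.St

/-! Project RG, module FRAT. -/

set_option autoImplicit false

open scoped Pointwise NumberField
open NumberField Pool.RG

namespace Pool.Agent.Helper85.RG

theorem tFrat : StFrat := by
  intro l _ Q _ _ D hQ hD
  by_contra hne
  obtain ⟨M, hM, hDM⟩ := (eq_top_or_exists_le_coatom D).resolve_left hne
  have hnil : Group.IsNilpotent Q := hQ.isNilpotent
  have hnc : NormalizerCondition Q := Group.normalizerCondition_of_isNilpotent
  have hMn : M.Normal := Subgroup.NormalizerCondition.normal_of_coatom M hnc hM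
  refine hD M hMn ?_ hDM
  obtain ⟨n, hn⟩ := hQ.index M
  have hn0 : n ≠ 0 := by
    rintro rfl
    rw [pow_zero, Subgroup.index_eq_one] at hn
    exact hM.1 hn
  have hcard : Nat.card (Q ⧸ M) = l ^ n := by
    rw [← hn]; rfl
  obtain ⟨K, hK⟩ := Sylow.exists_subgroup_card_pow_prime (G := Q ⧸ M) l (n := 1) (by
    rw [hcard]; exact pow_dvd_pow l (Nat.one_le_iff_ne_zero.2 hn0))
  rw [pow_one] at hK
  have hl1 : l ≠ 1 := (Fact.out : l.Prime).ne_one
  have hMK : M ≤ K.comap (QuotientGroup.mk' M) := by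
    intro x hx
    rw [Subgroup.mem_comap]
    have h1 : (QuotientGroup.mk' M) x = 1 := by
      rw [QuotientGroup.mk'_apply, QuotientGroup.eq_one_iff]
      exact hx
    rw [h1]
    exact K.one_mem
  have hneM : K.comap (QuotientGroup.mk' M) ≠ M := by
    intro h
    apply hl1
    rw [← hK, Subgroup.card_eq_one, Subgroup.eq_bot_iff_forall]
    intro x hx
    obtain ⟨y, rfl⟩ := QuotientGroup.mk'_surjective M x
    have h1 : y ∈ K.comap (QuotientGroup.mk' M) := hx
    rw [h] at h1
    rw [QuotientGroup.mk'_apply, QuotientGroup.eq_one_iff]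
    exact h1
  have htop : K.comap (QuotientGroup.mk' M) = ⊤ :=
    hM.2 _ (lt_of_le_of_ne hMK (Ne.symm hneM))
  have hKtop : K = ⊤ := by
    rw [eq_top_iff]
    intro x _
    obtain ⟨y, rfl⟩ := QuotientGroup.mk'_surjective M x
    have h1 : y ∈ K.comap (QuotientGroup.mk' M) := by rw [htop]; trivial
    exact h1
  have h2 : M.index = Nat.card (Q ⧸ M) := rfl
  rw [h2, ← hK, hKtop, Subgroup.card_top]

end Pool.Agent.Helper85.RG
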