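import Pool.Agent.Helper2.RG.St

/-! Project RG, module RAM: norms of units are `l`-th powers modulo the totally ramified primes. -/

set_option autoImplicit false

open scoped Pointwise NumberField
open NumberField Pool.RG

namespace Pool.Agent.Helper85.RG

section

variable (K L : Type) [Field K] [NumberField K] [Field L] [NumberField L] [Algebra K L]

omit [NumberField K] [NumberField L] in
private theorem coe_smul_RAM (g : Gal(L/K)) (x : 𝓞 L) :
    algebraMap (𝓞 L) L (g • x) = g (algebraMap (𝓞 L) L x) := rfl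

private theorem norm_RAM [IsGalois K L] (x : 𝓞 L) :
    algebraMap (𝓞 K) (𝓞 L) (RingOfIntegers.norm K x) = ∏ g : Gal(L/K), g • x := by
  apply FaithfulSMul.algebraMap_injective (𝓞 L) L
  rw [map_prod]
  have h1 : algebraMap (𝓞 L) L (algebraMap (𝓞 K) (𝓞 L) (RingOfIntegers.norm K x)) =
      algebraMap K L (Algebra.norm K (algebraMap (𝓞 L) L x)) := rfl
  rw [h1, Algebra.norm_eq_prod_automorphisms]
  exact Finset.prod_congr rfl fun g _ => (coe_smul_RAM K L g x).symm

private theorem trace_RAM [IsGalois K L] (x : 𝓞 L) :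
    ∃ t : 𝓞 K, algebraMap (𝓞 K) (𝓞 L) t = ∑ g : Gal(L/K), g • x := by
  have hint : IsIntegral ℤ (Algebra.trace K L (algebraMap (𝓞 L) L x)) :=
    Algebra.isIntegral_trace (RingOfIntegers.isIntegral_coe x)
  refine ⟨IsIntegralClosure.mk' (𝓞 K) _ hint, ?_⟩
  apply FaithfulSMul.algebraMap_injective (𝓞 L) L
  rw [map_sum, ← IsScalarTower.algebraMap_apply (𝓞 K) (𝓞 L) L,
    IsScalarTower.algebraMap_apply (𝓞 K) K L, IsIntegralClosure.algebraMap_mk',
    trace_eq_sum_automorphisms]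
  exact Finset.sum_congr rfl fun g _ => (coe_smul_RAM K L g x).symm

end

theorem tRam : StRam := by
  intro K L _ _ _ _ _ _ l hl hfin q hq u
  obtain ⟨P, hP, hPq, hI⟩ := hq
  have hin : ∀ (g : Gal(L/K)) (x : 𝓞 L), Ideal.Quotient.mk P (g • x) = Ideal.Quotient.mk P x := by
    intro g x
    have h1 : g ∈ P.inertia Gal(L/K) := by rw [hI]; trivial
    rw [Ideal.Quotient.eq]
    exact h1 x
  have hcard : Fintype.card Gal(L/K) = l := by
    rw [← hfin, ← Nat.card_eq_fintype_card, IsGalois.card_aut_eq_finrank]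
  have hqmem : ∀ x : 𝓞 K, x ∈ q ↔ algebraMap (𝓞 K) (𝓞 L) x ∈ P := by
    intro x
    rw [← hPq, Ideal.under_def, Ideal.mem_comap]
  have hqmax : q.IsMaximal := by
    rw [← hPq]
    exact Ideal.isMaximal_comap_of_isIntegral_of_isMaximal P
  have hq0 : q ≠ ⊥ := Ring.ne_bot_of_isMaximal_of_not_isField hqmax (RingOfIntegers.not_isField K)
  have hfinq : Finite (𝓞 K ⧸ q) := Ideal.finiteQuotientOfFreeOfNeBot q hq0
  have hNmem : ∀ x : 𝓞 L, Ideal.Quotient.mk P (algebraMap (𝓞 K) (𝓞 L) (RingOfIntegers.norm K x)) =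
      Ideal.Quotient.mk P x ^ l := by
    intro x
    rw [norm_RAM, map_prod, Finset.prod_congr rfl fun g _ => hin g x, Finset.prod_const,
      Finset.card_univ, hcard]
  have hunit : ∀ (y : 𝓞 K ⧸ q), y ^ l = Ideal.Quotient.mk q (RingOfIntegers.norm K (u : 𝓞 L)) →
      ∃ y : (𝓞 K ⧸ q)ˣ, Units.map (Ideal.Quotient.mk q).toMonoidHom (Nm K L u) = y ^ l := by
    intro y hy
    have h1 : IsUnit (y ^ l) := by
      rw [hy]
      exact (Units.map (Ideal.Quotient.mk q).toMonoidHom (Nm K L u)).isUnit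
    have h2 : IsUnit y := (isUnit_pow_iff hl.ne_zero).1 h1
    obtain ⟨z, rfl⟩ := h2
    refine ⟨z, ?_⟩
    ext
    rw [Units.val_pow_eq_pow_val, hy]
    rfl
  by_cases hlq : (l : 𝓞 K) ∈ q
  · -- characteristic `l`
    have hfield : Field (𝓞 K ⧸ q) := Ideal.Quotient.field q
    have hnt : Nontrivial (𝓞 K ⧸ q) := Ideal.Quotient.nontrivial_iff.2 hqmax.ne_top
    have hdom : IsDomain (𝓞 K ⧸ q) := Ideal.Quotient.isDomain q
    have hlF : Fact l.Prime := ⟨hl⟩
    have hchar : CharP (𝓞 K ⧸ q) l := by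
      rw [CharP.charP_iff_prime_eq_zero hl, ← map_natCast (Ideal.Quotient.mk q) l,
        Ideal.Quotient.eq_zero_iff_mem]
      exact hlq
    have hexp : ExpChar (𝓞 K ⧸ q) l := ExpChar.prime hl
    have hinj : Function.Injective (frobenius (𝓞 K ⧸ q) l) := frobenius_inj _ l
    obtain ⟨y, hy⟩ := (Finite.injective_iff_surjective.1 hinj)
      (Ideal.Quotient.mk q (RingOfIntegers.norm K (u : 𝓞 L)))
    exact hunit y hy
  · obtain ⟨t, ht⟩ := trace_RAM K L (u : 𝓞 L)
    have hne : Ideal.Quotient.mk q (l : 𝓞 K) ≠ 0 := by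
      rw [Ne, Ideal.Quotient.eq_zero_iff_mem]
      exact hlq
    obtain ⟨c, hc⟩ := Ideal.Quotient.exists_inv hne
    obtain ⟨m, rfl⟩ := Ideal.Quotient.mk_surjective c
    refine hunit (Ideal.Quotient.mk q (m * t)) ?_
    rw [← map_pow, Ideal.Quotient.eq, hqmem, map_sub, map_pow, map_mul, ← Ideal.Quotient.eq,
      map_pow, hNmem, map_mul, ht, map_sum, Finset.sum_congr rfl fun g _ => hin g (u : 𝓞 L),
      Finset.sum_const, Finset.card_univ, hcard]
    congr 1
    have h2 : Ideal.Quotient.mk P (algebraMap (𝓞 K) (𝓞 L) m) * (l : 𝓞 L ⧸ P) = 1 := by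
      have h3 : (l : 𝓞 K) * m - 1 ∈ q := by
        rw [← Ideal.Quotient.eq, map_mul, map_one]
        exact hc
      rw [hqmem, map_sub, map_mul, map_one, map_natCast, ← Ideal.Quotient.eq, map_mul, map_one,
        map_natCast] at h3
      rw [mul_comm]
      exact h3
    rw [nsmul_eq_mul, ← mul_assoc, h2, one_mul]

end Pool.Agent.Helper85.RG
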